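import Pool.Agent.X238.DW.Stm2

/-! Part DW_YID2 of the project DW (helper238); adapted from helper17's proof of the scalar case. -/

set_option autoImplicit false

namespace Pool.Agent.X283.DW

open MeasureTheory Set Filter Topology
open Pool.Agent.X238.DW

universe v

theorem lin (a b s : ℝ) (f : ℝ → ℝ) (hf : ∀ x, f x = a * x + b) : HasDerivAt f a s := by
  have h : f = fun x => a * x + b := funext hf
  rw [h]
  simpa using ((hasDerivAt_id s).const_mul a).add_const b

theorem t_YID2 : S_YID2.{v} := by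
  intro V _ _ _ c A x p g hK
  have cP : Continuous p := continuous_iff_continuousAt.2 fun s => (hK.dP s).continuousAt
  have cG : Continuous g := continuous_iff_continuousAt.2 fun s => (hK.dG s).continuousAt
  obtain ⟨J, hJ⟩ : ∃ J : ℝ → V, J = fun s => ∫ r in (0:ℝ)..s, (r * Real.exp (c * r / 2)) • p r :=
    ⟨_, rfl⟩
  have cJ : Continuous fun r : ℝ => (r * Real.exp (c * r / 2)) • p r := by fun_prop
  have dJ : ∀ s, HasDerivAt J ((s * Real.exp (c * s / 2)) • p s) s := fun s => by
    rw [hJ]; exact (cJ.integral_hasStrictDerivAt 0 s).hasDerivAt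
  have J0 : J 0 = 0 := by simp [hJ]
  have dE : ∀ s, HasDerivAt (fun s : ℝ => Real.exp (c * s / 2))
      (c / 2 * Real.exp (c * s / 2)) s := by
    intro s
    have h : HasDerivAt (fun s : ℝ => c * s / 2) (c / 2) s := lin _ 0 _ _ fun x => by ring
    exact h.exp.congr_deriv (by ring)
  have dE' : ∀ s, HasDerivAt (fun s : ℝ => Real.exp (-(c * s / 2)))
      (-(c / 2) * Real.exp (-(c * s / 2))) s := by
    intro s
    have h : HasDerivAt (fun s : ℝ => -(c * s / 2)) (-(c / 2)) s := lin _ 0 _ _ fun x => by ring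
    exact h.exp.congr_deriv (by ring)
  have hEE : ∀ s : ℝ, Real.exp (-(c * s / 2)) * Real.exp (c * s / 2) = 1 := fun s => by
    rw [← Real.exp_add, neg_add_cancel, Real.exp_zero]
  -- first integral
  have I1 : ∀ s, ∫ r in (0:ℝ)..s, ((c * r / 2 - 1) * Real.exp (c * r / 2)) • g r =
      ((c * s / 2 - 1) * Real.exp (c * s / 2)) • p s - (c ^ 2 / 4) • J s := by
    intro s
    have hd : ∀ x, HasDerivAt (fun s => ((c * s / 2 - 1) * Real.exp (c * s / 2)) • p s -
        (c ^ 2 / 4) • J s) (((c * x / 2 - 1) * Real.exp (c * x / 2)) • g x) x := by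
      intro x
      have h : HasDerivAt (fun s : ℝ => c * s / 2 - 1) (c / 2) x := lin _ (-1) _ _ fun x => by ring
      refine (((h.fun_mul (dE x)).fun_smul (hK.dP x)).fun_sub
        ((dJ x).fun_const_smul (c ^ 2 / 4))).congr_deriv ?_
      module
    have hi : IntervalIntegrable (fun x : ℝ => ((c * x / 2 - 1) * Real.exp (c * x / 2)) • g x)
        volume 0 s := by
      apply Continuous.intervalIntegrable
      fun_prop
    have := intervalIntegral.integral_eq_sub_of_hasDerivAt
      (fun x (_ : x ∈ uIcc 0 s) => hd x) hi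
    rw [this]
    simp [hK.P0, J0]
  -- second integral
  have I2 : ∀ s, A (J s) = (c ^ 2 / 4) • J s +
      Real.exp (c * s / 2) • (p s - s • g s - (c / 2 * s) • p s) := by
    have hd : ∀ x, HasDerivAt (fun s => A (J s) - (c ^ 2 / 4) • J s -
        Real.exp (c * s / 2) • (p s - s • g s - (c / 2 * s) • p s)) (0 : V) x := by
      intro x
      have h : HasDerivAt (fun s : ℝ => c / 2 * s) (c / 2) x := lin _ 0 _ _ fun x => by ring
      have hid : HasDerivAt (fun s : ℝ => s) 1 x := hasDerivAt_id x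
      have hA : HasDerivAt (fun s => A (J s)) (A ((x * Real.exp (c * x / 2)) • p x)) x :=
        A.hasFDerivAt.comp_hasDerivAt x (dJ x)
      refine ((hA.fun_sub ((dJ x).fun_const_smul (c ^ 2 / 4))).fun_sub
        ((dE x).fun_smul (((hK.dP x).fun_sub (hid.fun_smul (hK.dG x))).fun_sub
          (h.fun_smul (hK.dP x))))).congr_deriv ?_
      rw [map_smul]
      module
    intro s
    have h1 := is_const_of_deriv_eq_zero (fun x => (hd x).differentiableAt)
      (fun x => (hd x).deriv) s 0
    simp only [J0, map_zero, smul_zero, hK.P0, zero_smul, mul_zero, sub_zero] at h1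
    have h2 := sub_eq_zero.1 h1
    rw [← h2]
    module
  obtain ⟨Q, hQdef⟩ : ∃ Q : ℝ → V, Q = fun s => Real.exp (-(c * s / 2)) • J s := ⟨_, rfl⟩
  have Q0 : Q 0 = 0 := by simp [hQdef, J0]
  have hQ : ∀ s, HasDerivAt Q ((-(c / 2)) • Q s + s • p s) s := by
    intro s
    rw [hQdef]
    refine ((dE' s).fun_smul (dJ s)).congr_deriv ?_
    have e1 : Real.exp (-(c * s / 2)) • (s * Real.exp (c * s / 2)) • p s = s • p s := by
      rw [smul_smul]
      congr 1
      have := hEE s
      linear_combination s * this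
    rw [e1]
    module
  have hAQ : ∀ s, A (Q s) = (c ^ 2 / 4) • Q s + (p s - s • g s - (c / 2 * s) • p s) := by
    intro s
    rw [hQdef]
    simp only
    rw [map_smul, I2 s, smul_add, smul_smul _ (Real.exp (c * s / 2)), hEE, one_smul, smul_comm]
  have Yeq : ∀ s, YY c g s = (-(s / 2)) • g s + ((1 / 2) * (c * s / 2 - 1)) • p s -
      (c ^ 2 / 8) • Q s := by
    intro s
    unfold YY
    rw [I1 s, hQdef]
    simp only
    have e1 : (Real.exp (-(c * s / 2)) / 2) • ((c * s / 2 - 1) * Real.exp (c * s / 2)) • p s =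
        ((1 / 2) * (c * s / 2 - 1)) • p s := by
      rw [smul_smul]
      congr 1
      have := hEE s
      linear_combination ((1 / 2) * (c * s / 2 - 1)) * this
    rw [smul_sub, e1]
    module
  have Yfun : YY c g = fun s => (-(s / 2)) • g s + ((1 / 2) * (c * s / 2 - 1)) • p s -
      (c ^ 2 / 8) • Q s := funext Yeq
  refine ⟨fun s => (-(s / 2)) • p s + (c / 4) • Q s, ?_, ?_, ?_⟩
  · simp [hK.P0, Q0]
  · intro s
    have h : HasDerivAt (fun s : ℝ => -(s / 2)) (-(1 / 2)) s := lin _ 0 _ _ fun x => by ring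
    rw [Yeq s]
    refine ((h.fun_smul (hK.dP s)).fun_add ((hQ s).fun_const_smul (c / 4))).congr_deriv ?_
    module
  · intro s
    have h : HasDerivAt (fun s : ℝ => -(s / 2)) (-(1 / 2)) s := lin _ 0 _ _ fun x => by ring
    have h2 : HasDerivAt (fun s : ℝ => (1 / 2) * (c * s / 2 - 1)) (c / 4) s :=
      lin _ (-(1 / 2)) _ _ fun x => by ring
    rw [Yeq s, Yfun]
    refine (((h.fun_smul (hK.dG s)).fun_add (h2.fun_smul (hK.dP s))).fun_sub
      ((hQ s).fun_const_smul (c ^ 2 / 8))).congr_deriv ?_
    simp only [map_add, map_smul, hAQ s]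
    module

end Pool.Agent.X283.DW
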