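import Pool.Agent.X238.DW.Stm3

/-! Part DW3_SA of the project DW (helper238). -/

set_option autoImplicit false

namespace Pool.Agent.X283.DW

open MeasureTheory Set Filter Topology
open Pool.Agent.X238.DW

universe v

theorem sa (H : Type v) [NormedAddCommGroup H] [InnerProductSpace ℝ H] [CompleteSpace H]
  (A : H →ₗ.[ℝ] H) (b : ℝ) (hb : 0 < b) (hd : Dense (A.domain : Set H)) (hA : A.adjoint = A)
  (hc : ∀ x : A.domain, b * ‖(x : H)‖ ^ 2 ≤ inner ℝ (A x) (x : H)) : ∃ T : H →L[ℝ] H, Inv A b T := by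
  have hlow : ∀ x : A.domain, b * ‖(x : H)‖ ≤ ‖A x‖ := by
    intro x
    by_cases h0 : ‖(x : H)‖ = 0
    · rw [h0, mul_zero]; exact norm_nonneg _
    · have h1 := (hc x).trans (real_inner_le_norm _ _)
      have h2 : 0 < ‖(x : H)‖ := lt_of_le_of_ne (norm_nonneg _) (Ne.symm h0)
      have h3 : b * ‖(x : H)‖ * ‖(x : H)‖ ≤ ‖A x‖ * ‖(x : H)‖ := by
        rw [mul_assoc, ← pow_two]; exact h1
      exact le_of_mul_le_mul_right h3 h2
  have hcl : A.IsClosed := by
    have := LinearPMap.adjoint_isClosed (T := A) hd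
    rwa [hA] at this
  have hfa : ∀ x y : A.domain, inner ℝ (A x) (y : H) = inner ℝ (x : H) (A y) := by
    have := LinearPMap.adjoint_isFormalAdjoint (T := A) hd
    rw [hA] at this
    exact this
  have : CompleteSpace A.graph := hcl.completeSpace_coe
  let Φ : A.graph →L[ℝ] H := (ContinuousLinearMap.snd ℝ H H).comp A.graph.subtypeL
  have hanti : AntilipschitzWith (Real.toNNReal (1 / b + 1)) Φ := by
    apply AddMonoidHomClass.antilipschitz_of_bound
    rintro ⟨⟨x, y⟩, hxy⟩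
    obtain ⟨v, hv1, hv2⟩ := (LinearPMap.mem_graph_iff A).1 hxy
    simp only at hv1 hv2
    subst hv1 hv2
    have h1 := hlow v
    have h2 : ‖(v : H)‖ ≤ 1 / b * ‖A v‖ := by
      rw [one_div_mul_eq_div, le_div_iff₀ hb]
      linarith
    rw [Real.coe_toNNReal _ (by positivity)]
    change ‖((v : H), A v)‖ ≤ (1 / b + 1) * ‖A v‖
    rw [Prod.norm_def]
    have h3 : 0 ≤ 1 / b * ‖A v‖ := by positivity
    apply max_le
    · linarith [norm_nonneg (A v)]
    · linarith
  have hker : LinearMap.ker (Φ : A.graph →ₗ[ℝ] H) = ⊥ := LinearMap.ker_eq_bot.2 hanti.injective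
  have hclr : IsClosed (Set.range Φ) := hanti.isClosed_range Φ.uniformContinuous
  have hrange : LinearMap.range (Φ : A.graph →ₗ[ℝ] H) = ⊤ := by
    have hcl2 : IsClosed ((LinearMap.range (Φ : A.graph →ₗ[ℝ] H) : Submodule ℝ H) : Set H) := hclr
    have : CompleteSpace (LinearMap.range (Φ : A.graph →ₗ[ℝ] H)) := hcl2.completeSpace_coe
    rw [← Submodule.orthogonal_eq_bot_iff, Submodule.eq_bot_iff]
    intro z hz
    rw [Submodule.mem_orthogonal'] at hz
    have hz2 : ∀ x : A.domain, inner ℝ z (A x) = (0 : ℝ) := by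
      intro x
      exact hz (A x) ⟨⟨((x : H), A x), A.mem_graph x⟩, rfl⟩
    have hmem : z ∈ A.adjoint.domain := LinearPMap.mem_adjoint_domain_of_exists z
      ⟨0, fun x => by rw [inner_zero_left, hz2 x]⟩
    have happ : A.adjoint ⟨z, hmem⟩ = 0 := LinearPMap.adjoint_apply_eq hd _
      (fun x => by rw [inner_zero_left]; exact (hz2 x).symm)
    have tr : ∀ B : H →ₗ.[ℝ] H, B = A → ∀ (h : z ∈ B.domain), B ⟨z, h⟩ = 0 →
        ∃ h' : z ∈ A.domain, A ⟨z, h'⟩ = 0 := by
      rintro _ rfl h e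
      exact ⟨h, e⟩
    obtain ⟨h', e⟩ := tr _ hA hmem happ
    have h1 := hlow ⟨z, h'⟩
    rw [e, norm_zero] at h1
    have h2 : ‖z‖ ≤ 0 := by
      by_contra hcon
      push Not at hcon
      have : 0 < b * ‖z‖ := by positivity
      exact absurd h1 (not_le.2 this)
    exact norm_le_zero_iff.1 h2
  let Ψ := ContinuousLinearEquiv.ofBijective Φ hker hrange
  let T : H →L[ℝ] H := (ContinuousLinearMap.fst ℝ H H).comp
    (A.graph.subtypeL.comp (Ψ.symm : H →L[ℝ] A.graph))
  have hT : ∀ y : H, (T y, y) ∈ A.graph := by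
    intro y
    have h1 : Φ (Ψ.symm y) = y := Ψ.apply_symm_apply y
    have h2 : ((Ψ.symm y : A.graph) : H × H) = (T y, y) := by
      ext
      · rfl
      · exact h1
    rw [← h2]
    exact (Ψ.symm y).2
  have hT2 : ∀ y : H, ∃ v : A.domain, (v : H) = T y ∧ A v = y := fun y =>
    (LinearPMap.mem_graph_iff A).1 (hT y)
  have hleft : ∀ v : A.domain, T (A v) = (v : H) := by
    intro v
    obtain ⟨u, hu1, hu2⟩ := hT2 (A v)
    rw [← hu1]
    have h1 := hlow (u - v)
    rw [LinearPMap.map_sub, hu2, sub_self, norm_zero] at h1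
    have h2 : ‖((u - v : A.domain) : H)‖ ≤ 0 := by
      by_contra hcon
      push Not at hcon
      have : 0 < b * ‖((u - v : A.domain) : H)‖ := by positivity
      exact absurd h1 (not_le.2 this)
    have h3 := norm_le_zero_iff.1 h2
    rw [Submodule.coe_sub] at h3
    exact sub_eq_zero.1 h3
  refine ⟨T, ?_, ?_, hleft, ?_, ?_, ?_⟩
  · intro x
    obtain ⟨v, hv1, _⟩ := hT2 x
    rw [← hv1]
    exact v.2
  · intro x h
    obtain ⟨v, hv1, hv2⟩ := hT2 x
    have : (⟨T x, h⟩ : A.domain) = v := Subtype.ext hv1.symm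
    rw [this, hv2]
  · intro x y
    obtain ⟨u, hu1, hu2⟩ := hT2 x
    obtain ⟨v, hv1, hv2⟩ := hT2 y
    have := hfa u v
    rw [hu2, hv2, hu1, hv1] at this
    exact this.symm
  · intro x
    obtain ⟨u, hu1, hu2⟩ := hT2 x
    have := hc u
    rw [hu2, hu1] at this
    rwa [real_inner_comm] at this
  · refine Dense.mono ?_ hd
    intro v hv
    exact ⟨A ⟨v, hv⟩, hleft ⟨v, hv⟩⟩

theorem t_SA : S_SA.{v} := fun H _ _ _ A b hb hd hA hc => sa H A b hb hd hA hc

end Pool.Agent.X283.DW
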