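import Pool.Agent.X238.DW.Stm

/-! Part DW_ST1 of the project DW (helper238). -/

set_option autoImplicit false

namespace Pool.Agent.X283.DW

open MeasureTheory Set Filter Topology
open Pool.Agent.X238.DW

theorem int_G {c l γ C : ℝ} {P G : ℝ → ℝ} (hγ : 0 < γ) (hK : Ker c l P G)
    (h : ∀ s : ℝ, 0 ≤ s → |P s| ≤ C * Real.exp (-(γ * s)) ∧ |G s| ≤ C * Real.exp (-(γ * s))) :
    ∫ s in Ioi (0 : ℝ), G s = 0 := by
  have hGc : Continuous G := continuous_iff_continuousAt.2 fun s => (hK.dG s).continuousAt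
  have hexp : IntegrableOn (fun s : ℝ => C * Real.exp (-(γ * s))) (Ioi 0) := by
    have h1 : IntegrableOn (fun s : ℝ => C * Real.exp (-γ * s)) (Ioi 0) :=
      (exp_neg_integrableOn_Ioi 0 hγ).const_mul C
    simpa only [neg_mul] using h1
  have hint : IntegrableOn G (Ioi 0) := by
    refine Integrable.mono' hexp hGc.aestronglyMeasurable.restrict ?_
    filter_upwards [ae_restrict_mem measurableSet_Ioi] with s hs
    exact (h s (le_of_lt hs)).2
  have hlim : Tendsto P atTop (𝓝 0) := by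
    have h1 : Tendsto (fun s : ℝ => C * Real.exp (-(γ * s))) atTop (𝓝 0) := by
      have h2 : Tendsto (fun s : ℝ => γ * s) atTop atTop := tendsto_id.const_mul_atTop hγ
      have h3 := (Real.tendsto_exp_neg_atTop_nhds_zero.comp h2).const_mul C
      simpa [Function.comp_def] using h3
    refine squeeze_zero_norm' ?_ h1
    filter_upwards [eventually_ge_atTop 0] with s hs
    exact (h s hs).1
  have h2 := integral_Ioi_of_hasDerivAt_of_tendsto (a := 0) (f := P) (f' := G) (m := 0)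
    (hK.dP 0).continuousAt.continuousWithinAt (fun s _ => hK.dP s) hint hlim
  rw [h2, hK.P0, sub_zero]

theorem t_ST1 : S_ST1 := by
  intro hE hY c1 c2 l hc1 hc12 hl
  obtain ⟨γ0, hγ0, hE'⟩ := hE c1 c2 l hc1 hc12 hl
  obtain ⟨Ca, hCa, ha⟩ := hE' γ0 hγ0 le_rfl
  obtain ⟨Cb, hCb, hb⟩ := hE' (γ0 / 2) (by positivity) (by linarith)
  obtain ⟨Cc, hCc, hc⟩ := hE' (γ0 / 4) (by positivity) (by linarith)
  refine ⟨γ0 / 8, Ca + Cc * (Cb * Ca), by positivity, by positivity, ?_⟩
  intro c h hcc hh hch P G P' G' hK hK'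
  have hcI : c ∈ Icc c1 c2 := ⟨hcc, by linarith⟩
  have hchI : c + h ∈ Icc c1 c2 := ⟨by linarith, hch⟩
  -- the kernels
  have s1 : ∀ s : ℝ, 0 ≤ s → |P s| ≤ Ca * Real.exp (-(γ0 / 2 * s)) ∧
      |G s| ≤ Ca * Real.exp (-(γ0 / 2 * s)) := by
    intro s hs
    have h1 := ha c hcI P G (fun _ => 0) 0 le_rfl (fun s _ => hK.dP s)
      (fun s _ => by simpa using hK.dG s) (fun s _ => by simp) s hs
    rw [hK.P0, hK.G0] at h1
    simpa using h1
  -- the derivative
  obtain ⟨X, hX0, hX, hYd⟩ := hY c l P G hK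
  have hY0 : YY c G 0 = 0 := by
    unfold YY
    simp
  have s2 : ∀ s : ℝ, 0 ≤ s → |YY c G s| ≤ Cb * Ca * Real.exp (-(γ0 / 4 * s)) := by
    intro s hs
    have h1 := hb c hcI X (YY c G) (fun s => -G s) Ca hCa (fun s _ => hX s)
      (fun s _ => by simpa [sub_eq_add_neg] using hYd s)
      (fun s hs => by simpa using (s1 s hs).2) s hs
    rw [hX0, hY0] at h1
    have h2 := h1.2
    rw [abs_zero, zero_add, zero_add] at h2
    have e : γ0 / 2 / 2 * s = γ0 / 4 * s := by ring
    rwa [e] at h2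
  -- the remainder
  have s3 : ∀ s : ℝ, 0 ≤ s → |G' s - G s - h * YY c G s| ≤
      Cc * (h ^ 2 * (Cb * Ca)) * Real.exp (-(γ0 / 8 * s)) := by
    intro s hs
    have h1 := hc (c + h) hchI (fun s => P' s - P s - h * X s)
      (fun s => G' s - G s - h * YY c G s) (fun s => -(h ^ 2 * YY c G s)) (h ^ 2 * (Cb * Ca))
      (by positivity) (fun s _ => ((hK'.dP s).sub (hK.dP s)).sub ((hX s).const_mul h))
      (fun s _ => by
        have h2 := ((hK'.dG s).sub (hK.dG s)).sub ((hYd s).const_mul h)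
        have e : -((c + h) * (G' s - G s - h * YY c G s)) - l * (P' s - P s - h * X s) +
            -(h ^ 2 * YY c G s) = -((c + h) * G' s) - l * P' s - (-(c * G s) - l * P s) -
            h * (-(c * YY c G s) - l * X s - G s) := by ring
        rw [e]
        exact h2)
      (fun s hs => by
        rw [abs_neg, abs_mul, abs_of_nonneg (by positivity : (0 : ℝ) ≤ h ^ 2)]
        have h3 := mul_le_mul_of_nonneg_left (s2 s hs) (by positivity : (0 : ℝ) ≤ h ^ 2)
        calc h ^ 2 * |YY c G s| ≤ h ^ 2 * (Cb * Ca * Real.exp (-(γ0 / 4 * s))) := h3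
          _ = h ^ 2 * (Cb * Ca) * Real.exp (-(γ0 / 4 * s)) := by ring) s hs
    have h2 := h1.2
    simp only [hK'.P0, hK.P0, hX0, hK'.G0, hK.G0, hY0] at h2
    rw [mul_zero, sub_zero, sub_zero, sub_self, sub_zero, abs_zero, zero_add, zero_add] at h2
    have e : γ0 / 4 / 2 * s = γ0 / 8 * s := by ring
    rwa [e] at h2
  have hmono : ∀ s : ℝ, 0 ≤ s → Ca * Real.exp (-(γ0 / 2 * s)) ≤
      (Ca + Cc * (Cb * Ca)) * Real.exp (-(γ0 / 8 * s)) := by
    intro s hs
    apply mul_le_mul _ _ (Real.exp_pos _).le (by positivity)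
    · have : 0 ≤ Cc * (Cb * Ca) := by positivity
      linarith
    · apply Real.exp_le_exp.2
      nlinarith
  refine ⟨int_G (by positivity : 0 < γ0 / 2) hK s1, fun s hs => ⟨?_, ?_, ?_⟩⟩
  · exact (s1 s hs).1.trans (hmono s hs)
  · exact (s1 s hs).2.trans (hmono s hs)
  · refine (s3 s hs).trans ?_
    apply mul_le_mul_of_nonneg_right _ (Real.exp_pos _).le
    have : 0 ≤ Ca * h ^ 2 := by positivity
    nlinarith

end Pool.Agent.X283.DW
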